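import Mathlib

set_option autoImplicit false

namespace Pool.Agent.Results.MP_311bfa_al.NoExtension

open Topology

/-- The monoid: an identity, a zero element `z`, an element `g`, and elements `x i`, `y i`
with `x i * y i = g`; all other products of two non-identity elements are `z`. -/
inductive Mon : Type
  | e : Mon
  | z : Mon
  | g : Mon
  | x : ℕ → Mon
  | y : ℕ → Mon
  deriving DecidableEq

namespace Mon

/-- The multiplication of the monoid. -/
def mul : Mon → Mon → Mon
  | e, b => b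
  | a, e => a
  | x i, y j => if i = j then g else z
  | _, _ => z

theorem e_mul' (b : Mon) : mul e b = b := by cases b <;> rfl
theorem mul_e' (b : Mon) : mul b e = b := by cases b <;> rfl

theorem mul_assoc' (a b c : Mon) : mul (mul a b) c = mul a (mul b c) := by
  rcases a with _ | _ | _ | i | i <;> rcases b with _ | _ | _ | j | j <;>
    rcases c with _ | _ | _ | k | k <;>
    first
      | rfl
      | (by_cases h : i = j <;> simp [mul, h] <;> done)
      | (by_cases h : j = k <;> simp [mul, h])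

instance : Monoid Mon where
  mul := mul
  one := e
  mul_assoc := mul_assoc'
  one_mul := e_mul'
  mul_one := mul_e'

theorem x_mul_y_self (i : ℕ) : x i * y i = g := by
  change mul (x i) (y i) = g
  simp [mul]

theorem x_mul_y_ne {i j : ℕ} (h : i ≠ j) : x i * y j = z := by
  change mul (x i) (y j) = z
  simp [mul, h]

theorem x_mul_z (i : ℕ) : x i * z = z := rfl

end Mon

/-- Choosing smaller and smaller neighbourhoods. -/
theorem exists_seq {A : Type} [AddCommGroup A] [TopologicalSpace A] [IsTopologicalAddGroup A]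
    (W : Set A) (hW : W ∈ 𝓝 (0 : A)) :
    ∃ V : ℕ → Set A, V 0 = W ∧ (∀ i, V i ∈ 𝓝 (0 : A)) ∧
      ∀ i, ∀ a ∈ V (i + 1), ∀ b ∈ V (i + 1), a + b ∈ V i := by
  have h : ∀ S : {S : Set A // S ∈ 𝓝 (0 : A)}, ∃ T : {S : Set A // S ∈ 𝓝 (0 : A)},
      ∀ a ∈ T.1, ∀ b ∈ T.1, a + b ∈ S.1 := by
    rintro ⟨S, hS⟩
    obtain ⟨T, hT, h⟩ := exists_nhds_zero_half hS
    exact ⟨⟨T, hT⟩, h⟩
  choose H hH using h
  refine ⟨fun i => (H^[i] ⟨W, hW⟩).1, rfl, fun i => (H^[i] ⟨W, hW⟩).2, fun i a ha b hb => ?_⟩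
  have := hH (H^[i] ⟨W, hW⟩)
  simp only [Function.iterate_succ_apply'] at ha hb
  exact this a ha b hb

theorem sum_mem {A : Type} [AddCommGroup A] [TopologicalSpace A]
    (V : ℕ → Set A) (hV : ∀ i, V i ∈ 𝓝 (0 : A))
    (h : ∀ i, ∀ a ∈ V (i + 1), ∀ b ∈ V (i + 1), a + b ∈ V i) :
    ∀ (n k : ℕ) (x : ℕ → A), (∀ i < n, x i ∈ V (k + i + 1)) →
      (∑ i ∈ Finset.range n, x i) ∈ V k := by
  intro n
  induction n with
  | zero =>
    intro k x _
    simpa using mem_of_mem_nhds (hV k)
  | succ n ih =>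
    intro k x hx
    rw [Finset.sum_range_succ']
    apply h
    · apply ih (k + 1)
      intro i hi
      have := hx (i + 1) (by omega)
      have e : k + (i + 1) + 1 = k + 1 + i + 1 := by ring
      rwa [e] at this
    · have := hx 0 (by omega)
      simpa using this

/-- The key property of the ring. -/
def Bad (R : Type) [Ring R] [TopologicalSpace R] (c : R) : Prop :=
  ∀ (W : Set R) (V : ℕ → Set R), W ∈ 𝓝 (0 : R) → (∀ i, V i ∈ 𝓝 (0 : R)) →
    ∃ (n : ℕ) (x z : ℕ → R) (y : R), y ∈ W ∧ (∀ i, x i ∈ V i) ∧ (∀ i, z i ∈ V i) ∧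
      ∑ i ∈ Finset.range n, x i * y * z i = c

theorem key_abs (R A : Type) [Ring R] [TopologicalSpace R] [Ring A] [TopologicalSpace A]
    [T2Space A] [IsTopologicalRing A] (s : Mon → R →+ A)
    (hs : ∀ a b r t, s a r * s b t = s (a * b) (r * t))
    (hcont : Continuous (s 1)) (c : R) (hbad : Bad R c) : s Mon.g c = s Mon.z c := by
  by_contra hne
  have hd : s Mon.g c - s Mon.z c ≠ 0 := sub_ne_zero.mpr hne
  obtain ⟨d, hdd⟩ : ∃ d, d = s Mon.g c - s Mon.z c := ⟨_, rfl⟩
  rw [← hdd] at hd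
  have hW0 : {a : A | a ≠ d} ∈ 𝓝 (0 : A) := isOpen_ne.mem_nhds hd.symm
  have hcont3 : Continuous (fun t : A × A × A => t.1 * t.2.1 * t.2.2) := by fun_prop
  have h3 : (fun t : A × A × A => t.1 * t.2.1 * t.2.2) ⁻¹' {a : A | a ≠ d} ∈
      𝓝 ((0, 0, 0) : A × A × A) := by
    apply hcont3.continuousAt.preimage_mem_nhds
    simpa using hW0
  rw [nhds_prod_eq, nhds_prod_eq, Filter.mem_prod_iff] at h3
  obtain ⟨W1, hW1, W23, hW23, h3⟩ := h3
  rw [Filter.mem_prod_iff] at hW23
  obtain ⟨W2, hW2, W3, hW3, h23⟩ := hW23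
  have hprod : ∀ a ∈ W1, ∀ b ∈ W2, ∀ c ∈ W3, a * b * c ≠ d := by
    intro a ha b hb c hc
    have : ((a, b, c) : A × A × A) ∈ W1 ×ˢ W23 := ⟨ha, h23 ⟨hb, hc⟩⟩
    exact h3 this
  obtain ⟨V1, hV10, hV1n, hV1⟩ := exists_seq W1 hW1
  obtain ⟨V3, hV30, hV3n, hV3⟩ := exists_seq W3 hW3
  have hsingle : ∀ m : Mon, Continuous (s m) := by
    intro m
    have : (s m : R → A) = fun r : R => s 1 r * s m 1 := by
      funext r
      rw [hs]
      simp
    rw [this]
    fun_prop
  have hsub : ∀ i : ℕ, Continuous (fun r : R => s (Mon.y i) r - s Mon.z r) := by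
    intro i
    exact (hsingle _).sub (hsingle _)
  obtain ⟨n, x, z, y, hy, hx, hz, hsum⟩ := hbad
    ((s 1) ⁻¹' W2)
    (fun i => ((s (Mon.x i)) ⁻¹' V1 (i + 1)) ∩
      ((fun r : R => s (Mon.y i) r - s Mon.z r) ⁻¹' V3 (i + 1)))
    (by
      apply hcont.continuousAt.preimage_mem_nhds
      simpa using hW2)
    (by
      intro i
      apply Filter.inter_mem
      · apply (hsingle _).continuousAt.preimage_mem_nhds
        simpa using hV1n (i + 1)
      · apply (hsub i).continuousAt.preimage_mem_nhds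
        simpa using hV3n (i + 1))
  have hX : (∑ i ∈ Finset.range n, s (Mon.x i) (x i)) ∈ W1 := by
    rw [← hV10]
    apply sum_mem V1 hV1n hV1
    intro i _
    have := (hx i).1
    simpa using this
  have hZ : (∑ i ∈ Finset.range n, (s (Mon.y i) (z i) - s Mon.z (z i))) ∈ W3 := by
    rw [← hV30]
    apply sum_mem V3 hV3n hV3
    intro i _
    have := (hz i).2
    simpa using this
  apply hprod _ hX _ hy _ hZ
  rw [Finset.sum_mul, Finset.sum_mul]
  have hterm : ∀ i ∈ Finset.range n,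
      s (Mon.x i) (x i) * s 1 y *
        (∑ k ∈ Finset.range n, (s (Mon.y k) (z k) - s Mon.z (z k))) =
      s Mon.g (x i * y * z i) - s Mon.z (x i * y * z i) := by
    intro i hi
    rw [Finset.mul_sum, Finset.sum_eq_single_of_mem i hi]
    · rw [mul_sub]
      simp only [hs, mul_one, Mon.x_mul_y_self, Mon.x_mul_z]
    · intro k _ hk
      rw [mul_sub]
      simp only [hs, mul_one, Mon.x_mul_y_ne (Ne.symm hk), Mon.x_mul_z, sub_self]
  rw [Finset.sum_congr rfl hterm, Finset.sum_sub_distrib, hdd, ← hsum, map_sum, map_sum]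

theorem key (R : Type) [Ring R] [τ₀ : TopologicalSpace R] (c : R) (hc : c ≠ 0)
    (hbad : Bad R c) :
    ¬ ∃ τ : TopologicalSpace (MonoidAlgebra R Mon),
      @T2Space (MonoidAlgebra R Mon) τ ∧ @IsTopologicalRing (MonoidAlgebra R Mon) τ _ ∧
      TopologicalSpace.induced (fun r : R => MonoidAlgebra.single (1 : Mon) r) τ = τ₀ := by
  rintro ⟨τ, hT2, hring, hind⟩
  have h := key_abs R (MonoidAlgebra R Mon) (fun m => MonoidAlgebra.singleAddHom m)
    (fun a b r t => by
      simp [MonoidAlgebra.single_mul_single])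
    (by rw [← hind]; exact continuous_induced_dom) c hbad
  have h2 := congrArg (fun a : MonoidAlgebra R Mon => a.coeff Mon.g) h
  simp at h2
  exact hc h2

/-- The index set of the blocks. -/
abbrev Idx : Type := ℕ → ℕ

/-- The size of the block with index `f`. -/
abbrev sz (f : Idx) : ℕ := 2 ^ f 0

/-- Block upper triangular data. -/
@[ext] structure Big : Type where
  l : ZMod 2
  s : Idx → ZMod 2
  u : (f : Idx) → Fin (sz f) → ZMod 2
  v : (f : Idx) → Fin (sz f) → ZMod 2
  p : (f : Idx) → Fin (sz f) → ZMod 2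
  q : (f : Idx) → Fin (sz f) → ZMod 2
  M : (f : Idx) → Matrix (Fin (sz f)) (Fin (sz f)) (ZMod 2)

namespace Big

instance : Zero Big := ⟨⟨0, 0, 0, 0, 0, 0, 0⟩⟩
instance : One Big := ⟨⟨1, 0, 0, 0, 0, 0, 0⟩⟩
instance : Add Big :=
  ⟨fun a b => ⟨a.l + b.l, a.s + b.s, a.u + b.u, a.v + b.v, a.p + b.p, a.q + b.q, a.M + b.M⟩⟩
instance : Neg Big := ⟨fun a => ⟨-a.l, -a.s, -a.u, -a.v, -a.p, -a.q, -a.M⟩⟩
instance : Mul Big :=
  ⟨fun a b =>
    { l := a.l * b.l
      s := fun f => a.l * b.s f + a.s f * b.l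
      u := fun f i => a.l * b.u f i + a.u f i * b.l
      v := fun f i => a.l * b.v f i + a.v f i * b.l
      p := fun f i => a.l * b.p f i + a.p f i * b.l + a.u f i * b.s f
      q := fun f i => a.l * b.q f i + a.q f i * b.l + a.s f * b.v f i
      M := fun f i j => a.l * b.M f i j + a.M f i j * b.l + a.u f i * b.q f j
        + a.p f i * b.v f j }⟩

@[simp] theorem zero_l : (0 : Big).l = 0 := rfl
@[simp] theorem zero_s : (0 : Big).s = 0 := rfl
@[simp] theorem zero_u : (0 : Big).u = 0 := rfl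
@[simp] theorem zero_v : (0 : Big).v = 0 := rfl
@[simp] theorem zero_p : (0 : Big).p = 0 := rfl
@[simp] theorem zero_q : (0 : Big).q = 0 := rfl
@[simp] theorem zero_M : (0 : Big).M = 0 := rfl
@[simp] theorem one_l : (1 : Big).l = 1 := rfl
@[simp] theorem one_s : (1 : Big).s = 0 := rfl
@[simp] theorem one_u : (1 : Big).u = 0 := rfl
@[simp] theorem one_v : (1 : Big).v = 0 := rfl
@[simp] theorem one_p : (1 : Big).p = 0 := rfl
@[simp] theorem one_q : (1 : Big).q = 0 := rfl
@[simp] theorem one_M : (1 : Big).M = 0 := rfl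
@[simp] theorem add_l (a b : Big) : (a + b).l = a.l + b.l := rfl
@[simp] theorem add_s (a b : Big) : (a + b).s = a.s + b.s := rfl
@[simp] theorem add_u (a b : Big) : (a + b).u = a.u + b.u := rfl
@[simp] theorem add_v (a b : Big) : (a + b).v = a.v + b.v := rfl
@[simp] theorem add_p (a b : Big) : (a + b).p = a.p + b.p := rfl
@[simp] theorem add_q (a b : Big) : (a + b).q = a.q + b.q := rfl
@[simp] theorem add_M (a b : Big) : (a + b).M = a.M + b.M := rfl
@[simp] theorem neg_l (a : Big) : (-a).l = -a.l := rfl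
@[simp] theorem neg_s (a : Big) : (-a).s = -a.s := rfl
@[simp] theorem neg_u (a : Big) : (-a).u = -a.u := rfl
@[simp] theorem neg_v (a : Big) : (-a).v = -a.v := rfl
@[simp] theorem neg_p (a : Big) : (-a).p = -a.p := rfl
@[simp] theorem neg_q (a : Big) : (-a).q = -a.q := rfl
@[simp] theorem neg_M (a : Big) : (-a).M = -a.M := rfl
@[simp] theorem mul_l (a b : Big) : (a * b).l = a.l * b.l := rfl
@[simp] theorem mul_s (a b : Big) (f : Idx) : (a * b).s f = a.l * b.s f + a.s f * b.l := rfl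
@[simp] theorem mul_u (a b : Big) (f : Idx) (i : Fin (sz f)) :
    (a * b).u f i = a.l * b.u f i + a.u f i * b.l := rfl
@[simp] theorem mul_v (a b : Big) (f : Idx) (i : Fin (sz f)) :
    (a * b).v f i = a.l * b.v f i + a.v f i * b.l := rfl
@[simp] theorem mul_p (a b : Big) (f : Idx) (i : Fin (sz f)) :
    (a * b).p f i = a.l * b.p f i + a.p f i * b.l + a.u f i * b.s f := rfl
@[simp] theorem mul_q (a b : Big) (f : Idx) (i : Fin (sz f)) :
    (a * b).q f i = a.l * b.q f i + a.q f i * b.l + a.s f * b.v f i := rfl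
@[simp] theorem mul_M (a b : Big) (f : Idx) (i j : Fin (sz f)) :
    (a * b).M f i j = a.l * b.M f i j + a.M f i j * b.l + a.u f i * b.q f j
        + a.p f i * b.v f j := rfl

instance : Ring Big :=
  Ring.ofMinimalAxioms
    (fun a b c => by ext <;> simp [add_assoc])
    (fun a => by ext <;> simp)
    (fun a => by ext <;> simp [CharTwo.add_self_eq_zero])
    (fun a b c => by ext <;> simp <;> ring)
    (fun a => by ext <;> simp)
    (fun a => by ext <;> simp)
    (fun a b c => by ext <;> simp <;> ring)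
    (fun a b c => by ext <;> simp <;> ring)

end Big

/-- The subring of elements whose `s`, `p` and `q` parts have finite support. -/
def Fs : Subring Big where
  carrier := {a | {f | a.s f ≠ 0}.Finite ∧ {f | a.p f ≠ 0}.Finite ∧ {f | a.q f ≠ 0}.Finite}
  zero_mem' := by simp
  one_mem' := by simp
  add_mem' := by
    rintro a b ⟨h1, h2, h3⟩ ⟨k1, k2, k3⟩
    refine ⟨(h1.union k1).subset ?_, (h2.union k2).subset ?_, (h3.union k3).subset ?_⟩ <;>
    · intro f hf
      by_contra hcon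
      simp only [Set.mem_union, Set.mem_ofPred_eq, not_or, not_not] at hcon
      apply hf
      simp [hcon.1, hcon.2]
  neg_mem' := by
    rintro a ⟨h1, h2, h3⟩
    refine ⟨h1.subset ?_, h2.subset ?_, h3.subset ?_⟩ <;>
    · intro f hf
      simpa using hf
  mul_mem' := by
    rintro a b ⟨h1, h2, h3⟩ ⟨k1, k2, k3⟩
    refine ⟨(h1.union k1).subset ?_, ((h2.union k2).union k1).subset ?_,
      ((h3.union k3).union h1).subset ?_⟩
    · intro f hf
      by_contra hcon
      simp only [Set.mem_union, Set.mem_ofPred_eq, not_or, not_not] at hcon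
      apply hf
      simp [hcon.1, hcon.2]
    · intro f hf
      by_contra hcon
      simp only [Set.mem_union, Set.mem_ofPred_eq, not_or, not_not] at hcon
      apply hf
      funext i
      simp [hcon.1.1, hcon.1.2, hcon.2]
    · intro f hf
      by_contra hcon
      simp only [Set.mem_union, Set.mem_ofPred_eq, not_or, not_not] at hcon
      apply hf
      funext i
      simp [hcon.1.1, hcon.1.2, hcon.2]

/-- The basic neighbourhoods. -/
def U (m : ℕ) : Set Big :=
  {a | a.l = 0 ∧ (∀ f, f 0 < m → a.s f = 0 ∧ a.p f = 0 ∧ a.q f = 0) ∧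
    (∀ f (i : Fin (sz f)), f (i + 1) < m → a.u f i = 0 ∧ a.v f i = 0) ∧
    ∀ f, (a.M f).rank * 2 ^ m ≤ sz f}

theorem rank_add_le' {n : ℕ} (A B : Matrix (Fin n) (Fin n) (ZMod 2)) :
    (A + B).rank ≤ A.rank + B.rank := by
  rw [Matrix.rank, Matrix.rank, Matrix.rank, Matrix.mulVecLin_add]
  calc Module.finrank (ZMod 2) (LinearMap.range (A.mulVecLin + B.mulVecLin))
      ≤ Module.finrank (ZMod 2)
        (LinearMap.range A.mulVecLin ⊔ LinearMap.range B.mulVecLin :
          Submodule (ZMod 2) (Fin n → ZMod 2)) := by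
        apply Submodule.finrank_mono
        rintro x ⟨y, rfl⟩
        rw [LinearMap.add_apply]
        exact Submodule.add_mem_sup (LinearMap.mem_range_self _ _) (LinearMap.mem_range_self _ _)
    _ ≤ _ := Submodule.finrank_add_le_finrank_add_finrank _ _

theorem rank_neg' {n : ℕ} (A : Matrix (Fin n) (Fin n) (ZMod 2)) : (-A).rank = A.rank := by
  have : -A = A := by
    ext i j
    simp
  rw [this]

theorem zero_mem_U (m : ℕ) : (0 : Big) ∈ U m := by
  refine ⟨rfl, fun f _ => ⟨rfl, rfl, rfl⟩, fun f i _ => ⟨rfl, rfl⟩, fun f => ?_⟩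
  simp [Matrix.rank_zero]

theorem U_anti {m n : ℕ} (h : m ≤ n) : U n ⊆ U m := by
  rintro a ⟨h1, h2, h3, h4⟩
  refine ⟨h1, fun f hf => h2 f (by omega), fun f i hf => h3 f i (by omega), fun f => ?_⟩
  refine le_trans ?_ (h4 f)
  exact Nat.mul_le_mul_left _ (Nat.pow_le_pow_right (by norm_num) h)

theorem U_add {m : ℕ} {a b : Big} (ha : a ∈ U (m + 1)) (hb : b ∈ U (m + 1)) : a + b ∈ U m := by
  obtain ⟨a1, a2, a3, a4⟩ := ha
  obtain ⟨b1, b2, b3, b4⟩ := hb
  refine ⟨by simp [a1, b1], fun f hf => ?_, fun f i hf => ?_, fun f => ?_⟩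
  · have h1 := a2 f (by omega)
    have h2 := b2 f (by omega)
    simp [h1, h2]
  · have h1 := a3 f i (by omega)
    have h2 := b3 f i (by omega)
    simp [h1, h2]
  · have h1 := a4 f
    have h2 := b4 f
    have h3 := rank_add_le' (a.M f) (b.M f)
    rw [pow_succ] at h1 h2
    change ((a.M f) + (b.M f)).rank * 2 ^ m ≤ sz f
    have h5 : ((a.M f) + (b.M f)).rank * 2 ^ m ≤ ((a.M f).rank + (b.M f).rank) * 2 ^ m :=
      Nat.mul_le_mul_right _ h3
    nlinarith

theorem U_neg {m : ℕ} {a : Big} (ha : a ∈ U m) : -a ∈ U m := by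
  obtain ⟨a1, a2, a3, a4⟩ := ha
  refine ⟨by simp [a1], fun f hf => ?_, fun f i hf => ?_, fun f => ?_⟩
  · have h1 := a2 f hf
    simp [h1]
  · have h1 := a3 f i hf
    simp [h1]
  · have h1 := a4 f
    change (-(a.M f)).rank * 2 ^ m ≤ sz f
    rwa [rank_neg']

theorem rank_vv {n : ℕ} (a b : Fin n → ZMod 2) : (Matrix.vecMulVec a b).rank ≤ 1 :=
  Matrix.rank_vecMulVec_le a b

theorem mul_M_eq (a b : Big) (f : Idx) : (a * b).M f = a.l • b.M f + b.l • a.M f +
    Matrix.vecMulVec (a.u f) (b.q f) + Matrix.vecMulVec (a.p f) (b.v f) := by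
  ext i j
  simp [Matrix.vecMulVec, mul_comm]

theorem rank_smul' {n : ℕ} (c : ZMod 2) (A : Matrix (Fin n) (Fin n) (ZMod 2)) :
    (c • A).rank ≤ A.rank := by
  rcases eq_or_ne c 0 with h | h
  · simp [h, Matrix.rank_zero]
  · have : c = 1 := by
      revert h; revert c; decide
    simp [this]

theorem U_mul {m : ℕ} {a b : Big} (ha : a ∈ U (m + 1)) (hb : b ∈ U (m + 1)) : a * b ∈ U m := by
  obtain ⟨a1, a2, a3, a4⟩ := ha
  obtain ⟨b1, b2, b3, b4⟩ := hb
  refine ⟨by simp [a1, b1], fun f hf => ?_, fun f i hf => ?_, fun f => ?_⟩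
  · have h1 := a2 f (by omega)
    have h2 := b2 f (by omega)
    refine ⟨by simp [h1, h2], ?_, ?_⟩ <;>
    · funext i
      simp [h1, h2]
  · simp [a1, b1]
  · rw [mul_M_eq]
    by_cases hf : f 0 < m + 1
    · have h1 := a2 f hf
      have h2 := b2 f hf
      simp [a1, b1, h1, h2, Matrix.rank_zero]
    · have h5 : (a.l • b.M f + b.l • a.M f +
        Matrix.vecMulVec (a.u f) (b.q f) + Matrix.vecMulVec (a.p f) (b.v f)).rank ≤ 2 := by
        rw [a1, b1, zero_smul, zero_smul, add_zero, zero_add]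
        refine (rank_add_le' _ _).trans ?_
        have := rank_vv (a.u f) (b.q f)
        have := rank_vv (a.p f) (b.v f)
        omega
      have h6 : 2 ^ (m + 1) ≤ 2 ^ f 0 := Nat.pow_le_pow_right (by norm_num) (by omega)
      calc _ ≤ 2 * 2 ^ m := Nat.mul_le_mul_right _ h5
        _ = 2 ^ (m + 1) := by ring
        _ ≤ sz f := h6

/-- A bound for the entries of the index over a finite set of blocks. -/
theorem exists_bound (S : Set Idx) (hS : S.Finite) :
    ∃ N : ℕ, ∀ f ∈ S, ∀ i : Fin (sz f), f (i + 1) < N := by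
  obtain ⟨N, hN⟩ := (hS.image (fun f : Idx => ∑ i : Fin (sz f), f (i + 1))).bddAbove
  refine ⟨N + 1, fun f hf i => ?_⟩
  have h1 : ∑ i : Fin (sz f), f (i + 1) ≤ N := hN ⟨f, hf, rfl⟩
  have h2 : f (i + 1) ≤ ∑ i : Fin (sz f), f (i + 1) :=
    Finset.single_le_sum (f := fun i : Fin (sz f) => f (i + 1)) (fun _ _ => Nat.zero_le _)
      (Finset.mem_univ i)
  omega

theorem U_mul_left (x : Big) (hx : x ∈ Fs) (m : ℕ) : ∃ n, ∀ b ∈ U n, x * b ∈ U m := by
  obtain ⟨hs, hp, hq⟩ := hx
  obtain ⟨N, hN⟩ := exists_bound _ (hs.union hp)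
  refine ⟨m + 1 + N, fun b hb => ?_⟩
  obtain ⟨b1, b2, b3, b4⟩ := hb
  have hsv : ∀ f i, x.s f * b.v f i = 0 := by
    intro f i
    by_cases h : x.s f = 0
    · simp [h]
    · have := hN f (Or.inl h) i
      simp [(b3 f i (by omega)).2]
  have hpv : ∀ f, Matrix.vecMulVec (x.p f) (b.v f) = 0 := by
    intro f
    by_cases h : x.p f = 0
    · simp [h]
    · have : b.v f = 0 := by
        funext i
        have := hN f (Or.inr h) i
        simp [(b3 f i (by omega)).2]
      simp [this]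
  refine ⟨by simp [b1], fun f hf => ?_, fun f i hf => ?_, fun f => ?_⟩
  · have h2 := b2 f (by omega)
    refine ⟨by simp [b1, h2], ?_, ?_⟩
    · funext i
      simp [b1, h2]
    · funext i
      simp [b1, h2, hsv]
  · have h2 := b3 f i (by omega)
    simp [b1, h2]
  · rw [mul_M_eq, hpv, b1, zero_smul, add_zero, add_zero]
    by_cases hf : f 0 < m + 1 + N
    · have h2 := b2 f hf
      simp only [h2, Matrix.vecMulVec_zero, add_zero]
      have h3 := b4 f
      refine le_trans ?_ h3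
      exact Nat.mul_le_mul (rank_smul' _ _) (Nat.pow_le_pow_right (by norm_num) (by omega))
    · have h3 := b4 f
      have h4 : (x.l • b.M f + Matrix.vecMulVec (x.u f) (b.q f)).rank ≤ (b.M f).rank + 1 :=
        (rank_add_le' _ _).trans (add_le_add (rank_smul' _ _) (rank_vv _ _))
      have h6 : 2 ^ (m + 1) ≤ 2 ^ f 0 := Nat.pow_le_pow_right (by norm_num) (by omega)
      have h7 : (b.M f).rank * 2 ^ (m + 1) ≤ 2 ^ f 0 :=
        le_trans (Nat.mul_le_mul_left _ (Nat.pow_le_pow_right (by norm_num) (by omega))) h3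
      calc _ ≤ ((b.M f).rank + 1) * 2 ^ m := Nat.mul_le_mul_right _ h4
        _ ≤ 2 ^ f 0 := by
          rw [pow_succ] at h6 h7
          nlinarith

theorem U_mul_right (x : Big) (hx : x ∈ Fs) (m : ℕ) : ∃ n, ∀ b ∈ U n, b * x ∈ U m := by
  obtain ⟨hs, hp, hq⟩ := hx
  obtain ⟨N, hN⟩ := exists_bound _ (hs.union hq)
  refine ⟨m + 1 + N, fun b hb => ?_⟩
  obtain ⟨b1, b2, b3, b4⟩ := hb
  have hsv : ∀ f i, b.u f i * x.s f = 0 := by
    intro f i
    by_cases h : x.s f = 0
    · simp [h]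
    · have := hN f (Or.inl h) i
      simp [(b3 f i (by omega)).1]
  have hpv : ∀ f, Matrix.vecMulVec (b.u f) (x.q f) = 0 := by
    intro f
    by_cases h : x.q f = 0
    · simp [h]
    · have : b.u f = 0 := by
        funext i
        have := hN f (Or.inr h) i
        simp [(b3 f i (by omega)).1]
      simp [this]
  refine ⟨by simp [b1], fun f hf => ?_, fun f i hf => ?_, fun f => ?_⟩
  · have h2 := b2 f (by omega)
    refine ⟨by simp [b1, h2], ?_, ?_⟩
    · funext i
      simp [b1, h2, hsv]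
    · funext i
      simp [b1, h2]
  · have h2 := b3 f i (by omega)
    simp [b1, h2]
  · rw [mul_M_eq, hpv, b1, zero_smul, zero_add, add_zero]
    by_cases hf : f 0 < m + 1 + N
    · have h2 := b2 f hf
      simp only [h2, Matrix.zero_vecMulVec, add_zero]
      have h3 := b4 f
      refine le_trans ?_ h3
      exact Nat.mul_le_mul (rank_smul' _ _) (Nat.pow_le_pow_right (by norm_num) (by omega))
    · have h3 := b4 f
      have h4 : (x.l • b.M f + Matrix.vecMulVec (b.p f) (x.v f)).rank ≤ (b.M f).rank + 1 :=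
        (rank_add_le' _ _).trans (add_le_add (rank_smul' _ _) (rank_vv _ _))
      have h6 : 2 ^ (m + 1) ≤ 2 ^ f 0 := Nat.pow_le_pow_right (by norm_num) (by omega)
      have h7 : (b.M f).rank * 2 ^ (m + 1) ≤ 2 ^ f 0 :=
        le_trans (Nat.mul_le_mul_left _ (Nat.pow_le_pow_right (by norm_num) (by omega))) h3
      calc _ ≤ ((b.M f).rank + 1) * 2 ^ m := Nat.mul_le_mul_right _ h4
        _ ≤ 2 ^ f 0 := by
          rw [pow_succ] at h6 h7
          nlinarith

open Classical in
/-- The elements that get identified with zero: even sums of block identities. -/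
def InI (a : Big) : Prop :=
  a.l = 0 ∧ a.s = 0 ∧ a.u = 0 ∧ a.v = 0 ∧ a.p = 0 ∧ a.q = 0 ∧
    ∃ F : Finset Idx, Even F.card ∧ ∀ f, a.M f = if f ∈ F then 1 else 0

theorem InI_zero : InI 0 :=
  ⟨rfl, rfl, rfl, rfl, rfl, rfl, ∅, by simp, fun f => by simp⟩

theorem InI_add {a b : Big} (ha : InI a) (hb : InI b) : InI (a + b) := by
  classical
  obtain ⟨a1, a2, a3, a4, a5, a6, F, hF, hFM⟩ := ha
  obtain ⟨b1, b2, b3, b4, b5, b6, F', hF', hFM'⟩ := hb
  refine ⟨by simp [a1, b1], by simp [a2, b2], by simp [a3, b3], by simp [a4, b4],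
    by simp [a5, b5], by simp [a6, b6], symmDiff F F', ?_, fun f => ?_⟩
  · have h1 : (symmDiff F F').card = (F \ F').card + (F' \ F).card := by
      rw [symmDiff_def]
      apply Finset.card_union_of_disjoint
      exact disjoint_sdiff_sdiff
    have h2 := Finset.card_sdiff_add_card_inter F F'
    have h3 := Finset.card_sdiff_add_card_inter F' F
    rw [Finset.inter_comm F' F] at h3
    rw [h1]
    have h4 : Even (((F \ F').card + (F ∩ F').card) + ((F' \ F).card + (F ∩ F').card)) := by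
      rw [h2, h3]; exact hF.add hF'
    have h5 : ((F \ F').card + (F ∩ F').card) + ((F' \ F).card + (F ∩ F').card) =
      ((F \ F').card + (F' \ F).card) + 2 * (F ∩ F').card := by ring
    rw [h5, Nat.even_add] at h4
    exact h4.mpr (by simp)
  · change a.M f + b.M f = _
    rw [hFM, hFM']
    by_cases h1 : f ∈ F <;> by_cases h2 : f ∈ F' <;>
      simp [h1, h2, Finset.mem_symmDiff, CharTwo.add_self_eq_zero]

theorem zmod2_cases (c : ZMod 2) : c = 0 ∨ c = 1 := by
  revert c; decide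

theorem InI_mul_left (x : Big) {a : Big} (ha : InI a) : InI (x * a) := by
  obtain ⟨a1, a2, a3, a4, a5, a6, F, hF, hFM⟩ := ha
  rcases zmod2_cases x.l with h | h
  · have : x * a = 0 := by
      ext <;> simp [a1, a2, a3, a4, a5, a6, h]
    rw [this]; exact InI_zero
  · have : x * a = a := by
      ext <;> simp [a1, a2, a3, a4, a5, a6, h]
    rw [this]; exact ⟨a1, a2, a3, a4, a5, a6, F, hF, hFM⟩

theorem InI_mul_right (x : Big) {a : Big} (ha : InI a) : InI (a * x) := by
  obtain ⟨a1, a2, a3, a4, a5, a6, F, hF, hFM⟩ := ha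
  rcases zmod2_cases x.l with h | h
  · have : a * x = 0 := by
      ext <;> simp [a1, a2, a3, a4, a5, a6, h]
    rw [this]; exact InI_zero
  · have : a * x = a := by
      ext <;> simp [a1, a2, a3, a4, a5, a6, h]
    rw [this]; exact ⟨a1, a2, a3, a4, a5, a6, F, hF, hFM⟩

/-- The ideal of identified elements. -/
def I : Ideal Fs where
  carrier := {a | InI a.1}
  zero_mem' := InI_zero
  add_mem' := fun ha hb => InI_add ha hb
  smul_mem' := fun x _ ha => InI_mul_left x.1 ha

instance : I.IsTwoSided := ⟨fun {_} b ha => InI_mul_right b.1 ha⟩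

theorem mem_I (a : Fs) : a ∈ I ↔ InI a.1 := Iff.rfl

theorem rank_one_sz (f : Idx) : (1 : Matrix (Fin (sz f)) (Fin (sz f)) (ZMod 2)).rank = sz f := by
  rw [Matrix.rank_one, Fintype.card_fin]

theorem InI_U {a : Big} (ha : InI a) (hU : a ∈ U 1) : a = 0 := by
  obtain ⟨a1, a2, a3, a4, a5, a6, F, hF, hFM⟩ := ha
  have hM : a.M = 0 := by
    funext f
    rw [hFM f]
    split_ifs with hf
    · exfalso
      have h := hU.2.2.2 f
      rw [hFM f, if_pos hf, rank_one_sz] at h
      have : 0 < sz f := Nat.two_pow_pos _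
      omega
    · rfl
  ext <;> simp [a1, a2, a3, a4, a5, a6, hM]

theorem inter_U {a : Big} (h : ∀ m, a ∈ U m) : a = 0 := by
  have hl : a.l = 0 := (h 0).1
  have hs : a.s = 0 := by
    funext f; exact ((h (f 0 + 1)).2.1 f (by omega)).1
  have hp : a.p = 0 := by
    funext f; exact ((h (f 0 + 1)).2.1 f (by omega)).2.1
  have hq : a.q = 0 := by
    funext f; exact ((h (f 0 + 1)).2.1 f (by omega)).2.2
  have hu : a.u = 0 := by
    funext f i; exact ((h (f (i + 1) + 1)).2.2.1 f i (by omega)).1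
  have hv : a.v = 0 := by
    funext f i; exact ((h (f (i + 1) + 1)).2.2.1 f i (by omega)).2
  have hM : a.M = 0 := by
    funext f
    have h1 := (h (f 0 + 1)).2.2.2 f
    have h2 : (a.M f).rank = 0 := by
      by_contra hne
      have h3 : 1 ≤ (a.M f).rank := Nat.one_le_iff_ne_zero.mpr hne
      have h4 : 1 * 2 ^ (f 0 + 1) ≤ (a.M f).rank * 2 ^ (f 0 + 1) := Nat.mul_le_mul_right _ h3
      have h5 : 0 < 2 ^ f 0 := Nat.two_pow_pos _
      rw [pow_succ] at h4
      rw [pow_succ] at h1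
      have h6 : sz f = 2 ^ f 0 := rfl
      omega
    rw [Matrix.rank, Submodule.finrank_eq_zero, LinearMap.range_eq_bot] at h2
    have h7 : ∀ w, (a.M f).mulVec w = 0 := fun w => by
      have := congrArg (fun g => g w) h2
      simpa using this
    ext i j
    have h8 := congrFun (h7 (Pi.single j 1)) i
    simpa using h8
  ext <;> simp [hl, hs, hp, hq, hu, hv, hM]

/-- The ring of the counterexample. -/
abbrev S : Type := Fs ⧸ I

/-- The basic neighbourhoods of zero in `S`. -/
def US (m : ℕ) : Set S := (Ideal.Quotient.mk I) '' {a : Fs | a.1 ∈ U m}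

theorem US_anti {m n : ℕ} (h : m ≤ n) : US n ⊆ US m := by
  rintro _ ⟨a, ha, rfl⟩
  exact ⟨a, U_anti h ha, rfl⟩

/-- The ring filter basis on `S`. -/
@[instance_reducible]
def basis : RingFilterBasis S where
  sets := Set.range US
  nonempty := ⟨US 0, 0, rfl⟩
  inter_sets := by
    rintro _ _ ⟨m, rfl⟩ ⟨n, rfl⟩
    exact ⟨US (max m n), ⟨_, rfl⟩, fun x hx =>
      ⟨US_anti (le_max_left _ _) hx, US_anti (le_max_right _ _) hx⟩⟩
  zero' := by
    rintro _ ⟨m, rfl⟩
    exact ⟨0, zero_mem_U m, map_zero _⟩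
  add' := by
    rintro _ ⟨m, rfl⟩
    refine ⟨US (m + 1), ⟨_, rfl⟩, ?_⟩
    rintro _ ⟨_, ⟨a, ha, rfl⟩, _, ⟨b, hb, rfl⟩, rfl⟩
    exact ⟨a + b, U_add ha hb, map_add _ _ _⟩
  neg' := by
    rintro _ ⟨m, rfl⟩
    refine ⟨US m, ⟨_, rfl⟩, ?_⟩
    rintro _ ⟨a, ha, rfl⟩
    exact ⟨-a, U_neg ha, map_neg _ _⟩
  conj' := by
    rintro x _ ⟨m, rfl⟩
    refine ⟨US m, ⟨_, rfl⟩, ?_⟩
    intro y hy
    simpa using hy
  mul' := by
    rintro _ ⟨m, rfl⟩
    refine ⟨US (m + 1), ⟨_, rfl⟩, ?_⟩
    rintro _ ⟨_, ⟨a, ha, rfl⟩, _, ⟨b, hb, rfl⟩, rfl⟩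
    exact ⟨a * b, U_mul ha hb, map_mul _ _ _⟩
  mul_left' := by
    rintro x _ ⟨m, rfl⟩
    obtain ⟨x, rfl⟩ := Ideal.Quotient.mk_surjective x
    obtain ⟨n, hn⟩ := U_mul_left x.1 x.2 m
    refine ⟨US n, ⟨_, rfl⟩, ?_⟩
    rintro _ ⟨a, ha, rfl⟩
    exact ⟨x * a, hn a.1 ha, map_mul _ _ _⟩
  mul_right' := by
    rintro x _ ⟨m, rfl⟩
    obtain ⟨x, rfl⟩ := Ideal.Quotient.mk_surjective x
    obtain ⟨n, hn⟩ := U_mul_right x.1 x.2 m
    refine ⟨US n, ⟨_, rfl⟩, ?_⟩
    rintro _ ⟨a, ha, rfl⟩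
    exact ⟨a * x, hn a.1 ha, map_mul _ _ _⟩

theorem sep {x : S} (hx : ∀ m, x ∈ US m) : x = 0 := by
  obtain ⟨a, rfl⟩ := Ideal.Quotient.mk_surjective x
  choose b hb hba using hx
  have hI : ∀ m, InI (a - b m).1 := by
    intro m
    rw [← mem_I]
    rw [← Ideal.Quotient.eq, hba]
  have hbb : ∀ m, 2 ≤ m → (b m).1 = (b 2).1 := by
    intro m hm
    have h1 : InI ((b m).1 + -(b 2).1) := by
      have h2 : InI ((a - b 2).1 + (a - b m).1) := InI_add (hI 2) (hI m)
      have h3 : (a - b 2).1 + (a - b m).1 = (b m).1 + -(b 2).1 := by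
        push_cast
        ext <;> simp [sub_eq_add_neg] <;> ring_nf <;>
          simp [mul_two, CharTwo.add_self_eq_zero]
      rwa [h3] at h2
    have h4 := InI_U h1 (U_add (U_anti hm (hb m)) (U_neg (hb 2)))
    rwa [← sub_eq_add_neg, sub_eq_zero] at h4
  have h2 : (b 2).1 = 0 := by
    apply inter_U
    intro m
    rcases le_total 2 m with h | h
    · rw [← hbb m h]; exact hb m
    · exact U_anti h (hb 2)
  rw [Ideal.Quotient.eq_zero_iff_mem, mem_I]
  have h3 := hI 2
  have h4 : (a - b 2).1 = a.1 := by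
    push_cast
    rw [h2, sub_zero]
  rwa [h4] at h3

instance topS : TopologicalSpace S := basis.topology

instance : IsTopologicalRing S := basis.isTopologicalRing

theorem nhds_zero {V : Set S} (hV : V ∈ 𝓝 (0 : S)) : ∃ m, US m ⊆ V := by
  have h := basis.toAddGroupFilterBasis.nhds_zero_hasBasis.mem_iff.mp hV
  obtain ⟨_, ⟨m, rfl⟩, h⟩ := h
  exact ⟨m, h⟩

instance : T2Space S := by
  rw [basis.toAddGroupFilterBasis.t2Space_iff_sInter_subset rfl]
  intro x hx
  rw [Set.mem_singleton_iff]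
  apply sep
  intro m
  exact hx (US m) ⟨m, rfl⟩

open Classical in
/-- The elements `x_i`. -/
noncomputable def X (f : Idx) (i : ℕ) : Big where
  l := 0
  s := 0
  u := fun f' i' => if f' = f ∧ i'.val = i then 1 else 0
  v := 0
  p := 0
  q := 0
  M := 0

open Classical in
/-- The elements `z_i`. -/
noncomputable def Z (f : Idx) (i : ℕ) : Big where
  l := 0
  s := 0
  u := 0
  v := fun f' i' => if f' = f ∧ i'.val = i then 1 else 0
  p := 0
  q := 0
  M := 0

open Classical in
/-- The element `y`. -/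
noncomputable def Y (f : Idx) : Big where
  l := 0
  s := fun f' => if f' = f then 1 else 0
  u := 0
  v := 0
  p := 0
  q := 0
  M := 0

open Classical in
/-- The partial identity matrix in block `f`. -/
noncomputable def D (f : Idx) (n : ℕ) : Big where
  l := 0
  s := 0
  u := 0
  v := 0
  p := 0
  q := 0
  M := fun f' i' j' => if f' = f ∧ i' = j' ∧ i'.val < n then 1 else 0

theorem X_mem (f : Idx) (i : ℕ) : X f i ∈ Fs := by
  refine ⟨?_, ?_, ?_⟩ <;> simp [X]

theorem Z_mem (f : Idx) (i : ℕ) : Z f i ∈ Fs := by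
  refine ⟨?_, ?_, ?_⟩ <;> simp [Z]

theorem Y_mem (f : Idx) : Y f ∈ Fs := by
  refine ⟨?_, ?_, ?_⟩
  · apply (Set.finite_singleton f).subset
    intro f' hf'
    by_contra h
    apply hf'
    simp only [Set.mem_singleton_iff] at h
    simp [Y, h]
  · simp [Y]
  · simp [Y]

theorem D_mem (f : Idx) (n : ℕ) : D f n ∈ Fs := by
  refine ⟨?_, ?_, ?_⟩ <;> simp [D]

theorem D_succ (f : Idx) (n : ℕ) : D f (n + 1) = D f n + X f n * Y f * Z f n := by
  classical
  apply Big.ext
  · simp [D, X, Y, Z]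
  · funext f'
    simp [D, X, Y, Z]
  · funext f' i'
    simp [D, X, Y, Z]
  · funext f' i'
    simp [D, X, Y, Z]
  · funext f' i'
    simp [D, X, Y, Z]
  · funext f' i'
    simp [D, X, Y, Z]
  · funext f'
    ext i' j'
    change (if f' = f ∧ i' = j' ∧ i'.val < n + 1 then (1 : ZMod 2) else 0) =
      (if f' = f ∧ i' = j' ∧ i'.val < n then (1 : ZMod 2) else 0) +
        (X f n * Y f * Z f n).M f' i' j'
    rw [Big.mul_M, Big.mul_p]
    simp only [X, Y, Z]
    by_cases h1 : f' = f <;> by_cases h2 : i' = j' <;> simp [h1, h2]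
    · by_cases h3 : j'.val < n
      · have h5 : j'.val ≠ n := by omega
        simp [h3, h5]
        omega
      · by_cases h4 : j'.val = n
        · simp [h4]
        · simp [h3, h4]
          omega
    · intro h3 h4
      exact h2 (Fin.ext (h4.trans h3.symm))

theorem sum_eq (f : Idx) (n : ℕ) :
    ∑ i ∈ Finset.range n, X f i * Y f * Z f i = D f n := by
  induction n with
  | zero => ext <;> simp [D]
  | succ n ih => rw [Finset.sum_range_succ, ih, D_succ]

theorem X_U (f : Idx) (i : ℕ) : X f i ∈ U (f (i + 1)) := by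
  refine ⟨rfl, fun f' _ => ⟨rfl, rfl, rfl⟩, fun f' i' h => ⟨?_, rfl⟩, fun f' => ?_⟩
  · simp only [X, ite_eq_right_iff, one_ne_zero, imp_false, not_and]
    rintro rfl rfl
    omega
  · simp [X, Matrix.rank_zero]

theorem Z_U (f : Idx) (i : ℕ) : Z f i ∈ U (f (i + 1)) := by
  refine ⟨rfl, fun f' _ => ⟨rfl, rfl, rfl⟩, fun f' i' h => ⟨rfl, ?_⟩, fun f' => ?_⟩
  · simp only [Z, ite_eq_right_iff, one_ne_zero, imp_false, not_and]
    rintro rfl rfl
    omega
  · simp [Z, Matrix.rank_zero]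

theorem Y_U (f : Idx) : Y f ∈ U (f 0) := by
  refine ⟨rfl, fun f' h => ⟨?_, rfl, rfl⟩, fun f' i' h => ⟨rfl, rfl⟩, fun f' => ?_⟩
  · simp only [Y, ite_eq_right_iff, one_ne_zero, imp_false]
    rintro rfl
    omega
  · simp [Y, Matrix.rank_zero]

theorem D_M (f f' : Idx) : (D f (sz f)).M f' =
    @ite _ (f' = f) (Classical.propDecidable _) 1 0 := by
  ext i j
  by_cases h : f' = f
  · subst h
    simp [D, Matrix.one_apply]
  · simp [D, h]

theorem D_InI {f f' : Idx} (h : f ≠ f') : InI (D f (sz f) + D f' (sz f')) := by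
  classical
  refine ⟨rfl, by funext; simp [D], by funext; simp [D], by funext; simp [D],
    by funext; simp [D], by funext; simp [D], {f, f'}, ?_, fun f'' => ?_⟩
  · rw [Finset.card_pair h]
    exact even_two
  · change (D f (sz f)).M f'' + (D f' (sz f')).M f'' = _
    rw [D_M, D_M]
    by_cases h1 : f'' = f
    · subst h1
      simp [h]
    · by_cases h2 : f'' = f'
      · subst h2
        simp [h1]
      · simp [h1, h2]

theorem D_not_InI (f : Idx) : ¬ InI (D f (sz f)) := by
  classical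
  rintro ⟨_, _, _, _, _, _, F, hF, hFM⟩
  have h : F = {f} := by
    ext f'
    have h1 := hFM f'
    rw [D_M] at h1
    rw [Finset.mem_singleton]
    by_cases h2 : f' = f <;> by_cases h3 : f' ∈ F
    · simp [h2]
      rwa [h2] at h3
    · rw [if_pos h2, if_neg h3] at h1
      exact absurd h1 one_ne_zero
    · rw [if_neg h2, if_pos h3] at h1
      exact absurd h1.symm one_ne_zero
    · simp [h2, h3]
  rw [h] at hF
  simp at hF

theorem neg_eq_self' (a : Big) : -a = a := by
  ext <;> simp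

/-- The class of a block identity matrix. -/
noncomputable def cS (f : Idx) : S := Ideal.Quotient.mk I ⟨D f (sz f), D_mem f _⟩

theorem cS_ne (f : Idx) : cS f ≠ 0 := by
  intro h
  rw [cS, Ideal.Quotient.eq_zero_iff_mem, mem_I] at h
  exact D_not_InI f h

theorem cS_eq (f f' : Idx) : cS f = cS f' := by
  rcases eq_or_ne f f' with rfl | h
  · rfl
  · rw [cS, cS, Ideal.Quotient.eq, mem_I]
    have h1 := D_InI h
    have h2 : ((⟨D f (sz f), D_mem f _⟩ - ⟨D f' (sz f'), D_mem f' _⟩ : Fs) : Big) =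
        D f (sz f) + D f' (sz f') := by
      push_cast
      rw [sub_eq_add_neg, neg_eq_self']
    rwa [h2]

theorem bad : Bad S (cS 0) := by
  intro W V hW hV
  obtain ⟨m0, hm0⟩ := nhds_zero hW
  choose m hm using fun i => nhds_zero (hV i)
  let f : Idx := fun k => Nat.casesOn k m0 m
  refine ⟨sz f, fun i => Ideal.Quotient.mk I ⟨X f i, X_mem f i⟩,
    fun i => Ideal.Quotient.mk I ⟨Z f i, Z_mem f i⟩, Ideal.Quotient.mk I ⟨Y f, Y_mem f⟩,
    hm0 ⟨_, Y_U f, rfl⟩, fun i => hm i ⟨_, X_U f i, rfl⟩, fun i => hm i ⟨_, Z_U f i, rfl⟩, ?_⟩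
  rw [cS_eq 0 f, cS]
  simp only [← map_mul, ← map_sum]
  congr 1
  apply Subtype.ext
  push_cast
  exact sum_eq f (sz f)

/-- There are a topological ring (even one with an identity element) and a monoid `G` such that
no Hausdorff ring topology on the semigroup ring induces the given topology on the ring. -/
theorem result :
    ∃ (R : Type) (_ : Ring R) (τ₀ : TopologicalSpace R) (_ : T2Space R) (_ : IsTopologicalRing R)
      (G : Type) (_ : Monoid G),
      ¬ ∃ τ : TopologicalSpace (MonoidAlgebra R G),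
        @T2Space (MonoidAlgebra R G) τ ∧ @IsTopologicalRing (MonoidAlgebra R G) τ _ ∧
        TopologicalSpace.induced (fun r : R => MonoidAlgebra.single (1 : G) r) τ = τ₀ :=
  ⟨S, inferInstance, inferInstance, inferInstance, inferInstance, Mon, inferInstance,
    key S (cS 0) (cS_ne 0) bad⟩

end Pool.Agent.Results.MP_311bfa_al.NoExtension
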